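import Pool.Agent.U6.VE.Stm

/-! Project VE, package EX (helper981): counting of the non-diagonal solutions. -/

set_option autoImplicit false

namespace Pool.Agent.U981.VE

open MeasureTheory ProbabilityTheory Finset Pool.Agent.U6.VE
open scoped BigOperators ENNReal NNReal

variable {s : ℕ}

/-- all the indices of a pair -/
def zz (p : (Fin s → ℕ) × (Fin s → ℕ)) : Fin s ⊕ Fin s → ℕ := Sum.elim p.1 p.2

/-- the position of a representative with the same value -/
noncomputable def pat [Nonempty (Fin s ⊕ Fin s)] (p : (Fin s → ℕ) × (Fin s → ℕ)) :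
    Fin s ⊕ Fin s → Fin s ⊕ Fin s := fun a => Function.invFun (zz p) (zz p a)

theorem pat1 [Nonempty (Fin s ⊕ Fin s)] (p : (Fin s → ℕ) × (Fin s → ℕ)) (a : Fin s ⊕ Fin s) :
    zz p (pat p a) = zz p a := Function.invFun_eq ⟨a, rfl⟩

theorem pat2 [Nonempty (Fin s ⊕ Fin s)] (p : (Fin s → ℕ) × (Fin s → ℕ)) {a b : Fin s ⊕ Fin s}
    (h : zz p a = zz p b) : pat p a = pat p b := by
  unfold pat
  rw [h]

/-- number of positions with a given representative -/
noncomputable def nn (φ : Fin s → Fin s ⊕ Fin s) (a : Fin s ⊕ Fin s) : ℕ :=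
  (univ.filter fun b : Fin s => φ b = a).card

/-- the coefficients -/
noncomputable def cc (f : Fin s ⊕ Fin s → Fin s ⊕ Fin s) (a : Fin s ⊕ Fin s) : ℤ :=
  (nn (fun b => f (Sum.inl b)) a : ℤ) - (nn (fun b => f (Sum.inr b)) a : ℤ)

theorem sum_nn (φ : Fin s → Fin s ⊕ Fin s) (g : Fin s ⊕ Fin s → ℝ) :
    ∑ b, g (φ b) = ∑ a, (nn φ a : ℝ) * g a := by
  rw [← Finset.sum_fiberwise univ φ (fun b => g (φ b))]
  refine sum_congr rfl fun a _ => ?_
  have h1 : ∑ i ∈ univ.filter (fun b : Fin s => φ b = a), g (φ i) =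
      ∑ i ∈ univ.filter (fun b : Fin s => φ b = a), g a := by
    refine sum_congr rfl fun b hb => ?_
    rw [(mem_filter.1 hb).2]
  rw [h1, sum_const, nsmul_eq_mul]
  rfl

theorem nn_sum (φ : Fin s → Fin s ⊕ Fin s) : ∑ a, nn φ a = s := by
  have h := sum_nn φ (fun _ => 1)
  simp only [sum_const, card_univ, Fintype.card_fin, nsmul_eq_mul, mul_one] at h
  exact_mod_cast h.symm

theorem sum_cc (f : Fin s ⊕ Fin s → Fin s ⊕ Fin s) (g : Fin s ⊕ Fin s → ℝ) :
    ∑ b, g (f (Sum.inl b)) - ∑ b, g (f (Sum.inr b)) = ∑ a, (cc f a : ℝ) * g a := by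
  rw [sum_nn (fun b => f (Sum.inl b)) g, sum_nn (fun b => f (Sum.inr b)) g, ← sum_sub_distrib]
  refine sum_congr rfl fun a _ => ?_
  unfold cc
  push_cast
  ring

theorem cc_sum (f : Fin s ⊕ Fin s → Fin s ⊕ Fin s) : ∑ a, cc f a = 0 := by
  unfold cc
  rw [sum_sub_distrib, ← Nat.cast_sum, ← Nat.cast_sum, nn_sum, nn_sum, sub_self]

theorem exists_perm (f : Fin s ⊕ Fin s → Fin s ⊕ Fin s) (h : ∀ a, cc f a = 0) :
    ∃ σ : Equiv.Perm (Fin s), ∀ b, f (Sum.inl (σ b)) = f (Sum.inr b) := by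
  have h1 : ∀ a, Nonempty ({b : Fin s // f (Sum.inr b) = a} ≃ {b : Fin s // f (Sum.inl b) = a}) := by
    intro a
    refine ⟨Fintype.equivOfCardEq ?_⟩
    rw [Fintype.card_subtype, Fintype.card_subtype]
    have h2 := h a
    unfold cc nn at h2
    exact (Nat.cast_injective (R := ℤ) (sub_eq_zero.1 h2)).symm
  have E : ∀ a, {b : Fin s // f (Sum.inr b) = a} ≃ {b : Fin s // f (Sum.inl b) = a} :=
    fun a => (h1 a).some
  refine ⟨(Equiv.sigmaFiberEquiv (fun b => f (Sum.inr b))).symm.trans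
    ((Equiv.sigmaCongrRight E).trans (Equiv.sigmaFiberEquiv (fun b => f (Sum.inl b)))),
    fun b => ?_⟩
  simp only [Equiv.trans_apply, Equiv.sigmaCongrRight_apply]
  exact ((E _) ⟨b, rfl⟩).2

/-- the coefficients which are not zero -/
noncomputable def AA (f : Fin s ⊕ Fin s → Fin s ⊕ Fin s) : Finset (Fin s ⊕ Fin s) :=
  univ.filter fun a => cc f a ≠ 0

/-- the representatives with coefficient zero -/
noncomputable def BB (f : Fin s ⊕ Fin s → Fin s ⊕ Fin s) : Finset (Fin s ⊕ Fin s) :=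
  univ.filter fun a => cc f a = 0 ∧ ∃ x, f x = a

theorem card_AB (f : Fin s ⊕ Fin s → Fin s ⊕ Fin s) : (AA f).card + 2 * (BB f).card ≤ 2 * s := by
  have h1 : (AA f).card + 2 * (BB f).card =
      ∑ a, ((if cc f a ≠ 0 then 1 else 0) + 2 * (if cc f a = 0 ∧ ∃ x, f x = a then 1 else 0)) := by
    rw [sum_add_distrib, ← mul_sum, AA, BB, card_filter, card_filter]
  have h2 : ∑ a, (nn (fun b => f (Sum.inl b)) a + nn (fun b => f (Sum.inr b)) a) = 2 * s := by
    rw [sum_add_distrib, nn_sum, nn_sum]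
    ring
  rw [h1, ← h2]
  refine sum_le_sum fun a _ => ?_
  by_cases h3 : cc f a = 0
  · rw [if_neg (by simpa using h3), zero_add]
    by_cases h4 : ∃ x, f x = a
    · rw [if_pos ⟨h3, h4⟩]
      have h5 : nn (fun b => f (Sum.inl b)) a = nn (fun b => f (Sum.inr b)) a := by
        unfold cc at h3
        exact Nat.cast_injective (R := ℤ) (sub_eq_zero.1 h3)
      obtain ⟨x, hx⟩ := h4
      have h6 : 1 ≤ nn (fun b => f (Sum.inl b)) a := by
        rcases x with b | b
        · exact card_pos.2 ⟨b, mem_filter.2 ⟨mem_univ _, hx⟩⟩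
        · rw [h5]
          exact card_pos.2 ⟨b, mem_filter.2 ⟨mem_univ _, hx⟩⟩
      omega
    · rw [if_neg (fun h => h4 h.2)]
      simp
  · rw [if_pos h3, if_neg (fun h => h3 h.1)]
    have h5 : nn (fun b => f (Sum.inl b)) a ≠ nn (fun b => f (Sum.inr b)) a := by
      intro h
      apply h3
      unfold cc
      rw [h, sub_self]
    omega

theorem two_le_AA (f : Fin s ⊕ Fin s → Fin s ⊕ Fin s) (h : ¬ ∀ a, cc f a = 0) :
    2 ≤ (AA f).card := by
  push Not at h
  obtain ⟨a, ha⟩ := h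
  have h1 : a ∈ AA f := mem_filter.2 ⟨mem_univ _, ha⟩
  by_contra h2
  have h3 : (AA f).card = 1 := by
    have := card_pos.2 ⟨a, h1⟩
    omega
  obtain ⟨b, hb⟩ := card_eq_one.1 h3
  have h4 := cc_sum f
  have h5 : ∑ x ∈ AA f, cc f x = ∑ x, cc f x := by
    refine sum_subset (subset_univ _) fun x _ hx => ?_
    by_contra h6
    exact hx (mem_filter.2 ⟨mem_univ _, h6⟩)
  rw [← h5, hb, sum_singleton] at h4
  rw [hb, mem_singleton] at h1
  rw [h1] at ha
  exact ha h4

theorem mem_range_of_cc {f : Fin s ⊕ Fin s → Fin s ⊕ Fin s} {a : Fin s ⊕ Fin s}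
    (h : cc f a ≠ 0) : ∃ x, f x = a := by
  by_contra h1
  push Not at h1
  apply h
  unfold cc nn
  rw [filter_false_of_mem (fun b _ => h1 _), filter_false_of_mem (fun b _ => h1 _)]
  simp

/-- the set of conditions -/
def Ev (k : ℕ) {r : ℕ} (c : Fin r → ℤ) (n : Fin r → ℕ) : Set (Fin r → ℝ) :=
  {t : Fin r → ℝ | ∀ j : Fin k, |∑ i, (c i : ℝ) * ((n i : ℝ) + t i) ^ (j.val + 1)| < 1}

theorem meas_Ev (k : ℕ) {r : ℕ} (c : Fin r → ℤ) (n : Fin r → ℕ) : MeasurableSet (Ev k c n) := by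
  unfold Ev
  have h : {t : Fin r → ℝ | ∀ j : Fin k, |∑ i, (c i : ℝ) * ((n i : ℝ) + t i) ^ (j.val + 1)| < 1} =
      ⋂ j : Fin k, {t | |∑ i, (c i : ℝ) * ((n i : ℝ) + t i) ^ (j.val + 1)| < 1} := by
    ext t
    simp
  rw [h]
  refine MeasurableSet.iInter fun j => ?_
  refine measurableSet_lt ?_ measurable_const
  have : Continuous fun t : Fin r → ℝ => |∑ i, (c i : ℝ) * ((n i : ℝ) + t i) ^ (j.val + 1)| := by
    fun_prop
  exact this.measurable

/-- the event that a pair is a solution -/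
def Cd (k : ℕ) {Ω : Type} (θ : ℕ → Ω → ℝ) (p : (Fin s → ℕ) × (Fin s → ℕ)) : Set Ω :=
  {ω | ∀ j : Fin k, |∑ i, ((p.1 i : ℝ) + θ (p.1 i) ω) ^ (j.val + 1) -
        ∑ i, ((p.2 i : ℝ) + θ (p.2 i) ω) ^ (j.val + 1)| < 1}

theorem meas_Cd (k : ℕ) {Ω : Type} [MeasurableSpace Ω] (θ : ℕ → Ω → ℝ)
    (hθ : ∀ n, Measurable (θ n)) (p : (Fin s → ℕ) × (Fin s → ℕ)) :
    MeasurableSet (Cd k θ p) := by
  unfold Cd
  have h : {ω | ∀ j : Fin k, |∑ i, ((p.1 i : ℝ) + θ (p.1 i) ω) ^ (j.val + 1) -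
        ∑ i, ((p.2 i : ℝ) + θ (p.2 i) ω) ^ (j.val + 1)| < 1} =
      ⋂ j : Fin k, {ω | |∑ i, ((p.1 i : ℝ) + θ (p.1 i) ω) ^ (j.val + 1) -
        ∑ i, ((p.2 i : ℝ) + θ (p.2 i) ω) ^ (j.val + 1)| < 1} := by
    ext t
    simp
  rw [h]
  refine MeasurableSet.iInter fun j => ?_
  refine measurableSet_lt ?_ measurable_const
  refine (Measurable.sub ?_ ?_).abs
  · exact Finset.measurable_fun_sum _ fun i _ => ((hθ _).const_add _).pow_const _
  · exact Finset.measurable_fun_sum _ fun i _ => ((hθ _).const_add _).pow_const _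

theorem prob_eq {Ω : Type} [MeasurableSpace Ω] {P : Measure Ω} {D : ℝ≥0} {θ : ℕ → Ω → ℝ}
    (hM : Model P D θ) (k : ℕ) {r : ℕ} (c : Fin r → ℤ) (n : Fin r → ℕ)
    (hn : Function.Injective n) :
    P {ω | (fun i => θ (n i) ω) ∈ Ev k c n} =
      ENNReal.ofReal ((Measure.pi (fun i => P.map (θ (n i)))).real (Ev k c n)) := by
  have := hM.prob
  have : ∀ i, IsProbabilityMeasure (P.map (θ (n i))) := fun i =>
    Measure.isProbabilityMeasure_map (hM.meas _).aemeasurable
  have h1 : iIndepFun (fun i : Fin r => θ (n i)) P := hM.indep.precomp hn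
  have h2 := (iIndepFun_iff_map_fun_eq_pi_map (fun i => (hM.meas (n i)).aemeasurable)).1 h1
  rw [measureReal_def, ENNReal.ofReal_toReal (measure_ne_top _ _), ← h2,
    Measure.map_apply (measurable_pi_lambda _ fun i => hM.meas (n i)) (meas_Ev k c n)]
  rfl

/-- the pairs -/
def TT (s N : ℕ) : Finset ((Fin s → ℕ) × (Fin s → ℕ)) :=
  (Fintype.piFinset fun _ : Fin s => Finset.Icc 1 N) ×ˢ
    (Fintype.piFinset fun _ : Fin s => Finset.Icc 1 N)

theorem zz_inj {p q : (Fin s → ℕ) × (Fin s → ℕ)} (h : zz p = zz q) : p = q := by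
  ext i
  · exact congrFun h (Sum.inl i)
  · exact congrFun h (Sum.inr i)

theorem zz_mem {N : ℕ} {p : (Fin s → ℕ) × (Fin s → ℕ)} (h : p ∈ TT s N) (a : Fin s ⊕ Fin s) :
    zz p a ∈ Icc 1 N := by
  unfold TT at h
  rw [mem_product, Fintype.mem_piFinset, Fintype.mem_piFinset] at h
  rcases a with a | a
  · exact h.1 a
  · exact h.2 a

open scoped Classical in
theorem pattern_bound (hWT : S_WT) (k : ℕ) (D : ℝ≥0) (hk : 2 ≤ k) (hks : 2 * s < k * (k + 1))
    [Nonempty (Fin s ⊕ Fin s)] (f : Fin s ⊕ Fin s → Fin s ⊕ Fin s) :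
    ∃ C η : ℝ, 0 ≤ C ∧ 0 < η ∧ ∀ (Ω : Type) [MeasurableSpace Ω] (P : Measure Ω)
      (θ : ℕ → Ω → ℝ), Model P D θ → ∀ N : ℕ, 1 ≤ N →
      ∑ p ∈ ((TT s N).filter (fun p => ¬ ∃ σ : Equiv.Perm (Fin s), p.2 = p.1 ∘ σ)).filter
        (fun p => pat p = f), P (Cd k θ p) ≤ ENNReal.ofReal (C * (N : ℝ) ^ ((s : ℝ) - η)) := by
  by_cases hc : ∀ a, cc f a = 0
  · refine ⟨0, 1, le_rfl, one_pos, fun Ω _ P θ hM N hN => ?_⟩
    rw [filter_false_of_mem, sum_empty]
    · exact bot_le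
    · intro p hp hpf
      apply (mem_filter.1 hp).2
      obtain ⟨σ, hσ⟩ := exists_perm f hc
      refine ⟨σ, ?_⟩
      funext b
      have h1 := hσ b
      have h2 : zz p (Sum.inl (σ b)) = zz p (Sum.inr b) := by
        rw [← pat1 p (Sum.inl (σ b)), ← pat1 p (Sum.inr b), hpf, h1]
      exact h2.symm
  · have hr2 := two_le_AA f hc
    have hAB := card_AB f
    set r : ℕ := (AA f).card with hr
    let e : Fin r ≃ {x // x ∈ AA f} := (AA f).equivFin.symm
    have hce : ∀ i, cc f (e i) ≠ 0 := fun i => (mem_filter.1 (e i).2).2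
    obtain ⟨C, η, hC, hη, hbd⟩ := hWT k r D (fun i => cc f (e i)) hk hr2 (by omega) hce
    refine ⟨C, η, hC, hη, fun Ω _ P θ hM N hN => ?_⟩
    have := hM.prob
    have hLaw : Law D (fun n => P.map (θ n)) :=
      ⟨fun n => Measure.isProbabilityMeasure_map (hM.meas n).aemeasurable, hM.dens⟩
    set G : (Fin r → ℕ) → ℝ≥0∞ := fun n =>
      ENNReal.ofReal ((Measure.pi (fun i => P.map (θ (n i)))).real
        (Ev k (fun i => cc f (e i)) n)) with hG
    set U := ((TT s N).filter (fun p => ¬ ∃ σ : Equiv.Perm (Fin s), p.2 = p.1 ∘ σ)).filter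
        (fun p => pat p = f) with hU
    have hstep : ∀ p ∈ U, P (Cd k θ p) ≤ G (fun i => zz p (e i)) := by
      intro p hp
      have hpf : pat p = f := (mem_filter.1 hp).2
      have hinj : Function.Injective fun i => zz p (e i) := by
        intro i i' h
        obtain ⟨x, hx⟩ := mem_range_of_cc (hce i)
        obtain ⟨y, hy⟩ := mem_range_of_cc (hce i')
        simp only at h
        rw [← hx, ← hy, ← hpf, pat1, pat1] at h
        have h3 := pat2 p h
        rw [hpf, hx, hy] at h3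
        exact e.injective (Subtype.ext h3)
      rw [hG]
      simp only
      rw [← prob_eq hM k _ _ hinj]
      apply measure_mono
      intro ω hω j
      have h1 := hω j
      have h2 := sum_cc f (fun a => ((zz p a : ℝ) + θ (zz p a) ω) ^ (j.val + 1))
      have h3 : ∑ a, (cc f a : ℝ) * ((zz p a : ℝ) + θ (zz p a) ω) ^ (j.val + 1) =
          ∑ i, (cc f (e i) : ℝ) * ((zz p (e i) : ℝ) + θ (zz p (e i)) ω) ^ (j.val + 1) := by
        rw [Equiv.sum_comp e (fun a : {x // x ∈ AA f} =>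
          (cc f a : ℝ) * ((zz p a : ℝ) + θ (zz p a) ω) ^ (j.val + 1)),
          Finset.sum_coe_sort (AA f) (fun a =>
          (cc f a : ℝ) * ((zz p a : ℝ) + θ (zz p a) ω) ^ (j.val + 1))]
        symm
        refine sum_subset (subset_univ _) fun x _ hx => ?_
        have h6 : cc f x = 0 := by
          by_contra h6
          exact hx (mem_filter.2 ⟨mem_univ _, h6⟩)
        rw [h6, Int.cast_zero, zero_mul]
      rw [← h3, ← h2]
      simp only [← hpf, pat1]
      exact h1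
    let Φ : (Fin s → ℕ) × (Fin s → ℕ) → (Fin r → ℕ) × ({x // x ∈ BB f} → ℕ) :=
      fun p => (fun i => zz p (e i), fun b => zz p b)
    have hΦ : Set.InjOn Φ (U : Set ((Fin s → ℕ) × (Fin s → ℕ))) := by
      intro p hp q hq h
      have hpf : pat p = f := (mem_filter.1 (mem_coe.1 hp)).2
      have hqf : pat q = f := (mem_filter.1 (mem_coe.1 hq)).2
      apply zz_inj
      funext x
      have e1 : ∀ a ∈ AA f, zz p a = zz q a := by
        intro a ha
        have h4 := congrFun (congrArg Prod.fst h) (e.symm ⟨a, ha⟩)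
        simpa [Φ] using h4
      have e2 : ∀ a ∈ BB f, zz p a = zz q a := by
        intro a ha
        exact congrFun (congrArg Prod.snd h) ⟨a, ha⟩
      rw [← pat1 p x, ← pat1 q x, hpf, hqf]
      by_cases h5 : cc f (f x) = 0
      · exact e2 _ (mem_filter.2 ⟨mem_univ _, h5, x, rfl⟩)
      · exact e1 _ (mem_filter.2 ⟨mem_univ _, h5⟩)
    have hsum : ∑ p ∈ U, G (fun i => zz p (e i)) ≤
        (N : ℝ≥0∞) ^ (BB f).card * ∑ n ∈ Fintype.piFinset (fun _ : Fin r => Finset.Icc 1 N), G n := by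
      calc ∑ p ∈ U, G (fun i => zz p (e i)) = ∑ y ∈ U.image Φ, G y.1 := by
            rw [sum_image hΦ]
        _ ≤ ∑ y ∈ (Fintype.piFinset (fun _ : Fin r => Finset.Icc 1 N)) ×ˢ
              (Fintype.piFinset (fun _ : {x // x ∈ BB f} => Finset.Icc 1 N)), G y.1 := by
            apply sum_le_sum_of_subset
            intro y hy
            obtain ⟨p, hp, rfl⟩ := mem_image.1 hy
            have hpT : p ∈ TT s N := (mem_filter.1 (mem_filter.1 hp).1).1
            rw [mem_product, Fintype.mem_piFinset, Fintype.mem_piFinset]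
            exact ⟨fun i => zz_mem hpT _, fun b => zz_mem hpT _⟩
        _ = _ := by
            rw [sum_product]
            simp only [sum_const, Fintype.card_piFinset, prod_const, card_univ, Nat.card_Icc,
              Fintype.card_coe, nsmul_eq_mul]
            rw [← mul_sum]
            simp
    have hN1 : (1 : ℝ) ≤ N := by exact_mod_cast hN
    have hN0 : (0 : ℝ) < N := by linarith
    have hG2 : ∑ n ∈ Fintype.piFinset (fun _ : Fin r => Finset.Icc 1 N), G n ≤
        ENNReal.ofReal (C * (N : ℝ) ^ ((r : ℝ) / 2 - η)) := by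
      rw [hG, ← ENNReal.ofReal_sum_of_nonneg (fun n _ => measureReal_nonneg)]
      exact ENNReal.ofReal_le_ofReal (hbd _ hLaw N hN)
    calc ∑ p ∈ U, P (Cd k θ p) ≤ ∑ p ∈ U, G (fun i => zz p (e i)) := sum_le_sum hstep
      _ ≤ (N : ℝ≥0∞) ^ (BB f).card *
          ∑ n ∈ Fintype.piFinset (fun _ : Fin r => Finset.Icc 1 N), G n := hsum
      _ ≤ (N : ℝ≥0∞) ^ (BB f).card * ENNReal.ofReal (C * (N : ℝ) ^ ((r : ℝ) / 2 - η)) :=
          mul_le_mul' le_rfl hG2
      _ = ENNReal.ofReal ((N : ℝ) ^ (BB f).card * (C * (N : ℝ) ^ ((r : ℝ) / 2 - η))) := by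
          rw [ENNReal.ofReal_mul (p := (N : ℝ) ^ (BB f).card) (by positivity),
            ENNReal.ofReal_pow (by positivity), ENNReal.ofReal_natCast]
      _ ≤ ENNReal.ofReal (C * (N : ℝ) ^ ((s : ℝ) - η)) := by
          apply ENNReal.ofReal_le_ofReal
          have h7 : (N : ℝ) ^ (BB f).card * (N : ℝ) ^ ((r : ℝ) / 2 - η) ≤
              (N : ℝ) ^ ((s : ℝ) - η) := by
            rw [← Real.rpow_natCast, ← Real.rpow_add hN0]
            apply Real.rpow_le_rpow_of_exponent_le hN1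
            have h8 : ((r : ℝ) + 2 * ((BB f).card : ℝ)) ≤ 2 * (s : ℝ) := by exact_mod_cast hAB
            linarith
          calc (N : ℝ) ^ (BB f).card * (C * (N : ℝ) ^ ((r : ℝ) / 2 - η))
              = C * ((N : ℝ) ^ (BB f).card * (N : ℝ) ^ ((r : ℝ) / 2 - η)) := by ring
            _ ≤ C * (N : ℝ) ^ ((s : ℝ) - η) := mul_le_mul_of_nonneg_left h7 hC

open scoped Classical in
theorem t_EX : T_EX := by
  intro hWT k s D hk hs hks
  have : Nonempty (Fin s ⊕ Fin s) := ⟨Sum.inl ⟨0, by omega⟩⟩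
  choose C η hC hη hbd using fun f => pattern_bound (s := s) hWT k D hk hks f
  obtain ⟨f₀, hf₀⟩ := Finite.exists_min η
  refine ⟨∑ f, C f, η f₀, sum_nonneg fun f _ => hC f, hη f₀, fun Ω _ P θ hM N hN => ?_⟩
  have hN1 : (1 : ℝ) ≤ N := by exact_mod_cast hN
  set V := (TT s N).filter (fun p => ¬ ∃ σ : Equiv.Perm (Fin s), p.2 = p.1 ∘ σ) with hV
  have h1 : ∀ ω, ((ND s k N (fun n => θ n ω)).card : ℝ≥0∞) =
      ∑ p ∈ V, (Cd k θ p).indicator (fun _ => (1 : ℝ≥0∞)) ω := by
    intro ω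
    have h2 : ND s k N (fun n => θ n ω) = V.filter (fun p => ω ∈ Cd k θ p) := by
      ext p
      unfold ND Sol Cd
      rw [hV]
      unfold TT
      simp only [mem_filter, Set.mem_ofPred_eq]
      tauto
    rw [h2, card_filter, Nat.cast_sum]
    refine sum_congr rfl fun p _ => ?_
    by_cases h3 : ω ∈ Cd k θ p
    · rw [if_pos h3, Set.indicator_of_mem h3, Nat.cast_one]
    · rw [if_neg h3, Set.indicator_of_notMem h3, Nat.cast_zero]
  have h2 : ∫⁻ ω, ((ND s k N (fun n => θ n ω)).card : ℝ≥0∞) ∂P = ∑ p ∈ V, P (Cd k θ p) := by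
    simp only [h1]
    rw [lintegral_finsetSum]
    · refine sum_congr rfl fun p _ => ?_
      rw [lintegral_indicator (meas_Cd k θ hM.meas p)]
      simp
    · intro p _
      exact measurable_const.indicator (meas_Cd k θ hM.meas p)
  rw [h2, ← Finset.sum_fiberwise V pat (fun p => P (Cd k θ p))]
  calc ∑ f, ∑ p ∈ V.filter (fun p => pat p = f), P (Cd k θ p)
      ≤ ∑ f, ENNReal.ofReal (C f * (N : ℝ) ^ ((s : ℝ) - η f)) :=
        sum_le_sum fun f _ => hbd f Ω P θ hM N hN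
    _ ≤ ∑ f, ENNReal.ofReal (C f * (N : ℝ) ^ ((s : ℝ) - η f₀)) := by
        refine sum_le_sum fun f _ => ENNReal.ofReal_le_ofReal ?_
        apply mul_le_mul_of_nonneg_left _ (hC f)
        apply Real.rpow_le_rpow_of_exponent_le hN1
        have := hf₀ f
        linarith
    _ = ENNReal.ofReal ((∑ f, C f) * (N : ℝ) ^ ((s : ℝ) - η f₀)) := by
        rw [← ENNReal.ofReal_sum_of_nonneg (fun f _ => mul_nonneg (hC f) (by positivity)),
          ← sum_mul]

end Pool.Agent.U981.VE
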